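import Pool.Agent.H80.JD.Basic

/-!
# Long clusters contain chains of type A
-/

set_option autoImplicit false

namespace Pool.Agent.H51.JD

open Finset Filter Topology Pool.Agent.H80.JD

theorem A0_cons {n : ℕ} (D : Fin n → Bool) (L : List (Fin n → Bool)) :
    A0 (D :: L) = (A0 L).filter (fun c => ¬ D c = true) := by
  ext c
  simp only [A0, mem_filter, mem_univ, true_and, List.mem_cons, forall_eq_or_imp,
    Bool.not_eq_true]
  tauto

theorem cha (hEX : T_EX) : T_CHA := by
  intro n S x y M J hS hJ hn hM
  have key : ∀ j ≤ J, ∃ L ∈ chainsA n M j, L.length = j ∧ (∀ D ∈ L, S (xr x D)) ∧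
      n ≤ (A0 L).card + j * M := by
    intro j
    induction j with
    | zero =>
      intro _
      refine ⟨[], by simp [chainsA], rfl, by simp, ?_⟩
      simp [A0]
    | succ j ih =>
      intro hj
      obtain ⟨L, hL, hlen, hSL, hA⟩ := ih (by omega)
      obtain ⟨z, hz, hw, hf⟩ := hEX n S x y M J L hS hJ (by omega) hn hM (by rw [hlen]; exact hA)
      refine ⟨xr x z :: L, ?_, ?_, ?_, ?_⟩
      · simp only [chainsA, mem_biUnion, mem_image, mem_filter, mem_univ, true_and]
        exact ⟨L, hL, xr x z, hw, rfl⟩
      · simp [hlen]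
      · intro D hD
        rcases List.mem_cons.1 hD with h | h
        · rw [h, xr_xr]; exact hz.right
        · exact hSL D h
      · rw [A0_cons]
        have h1 := card_filter_add_card_filter_not (s := A0 L) (fun c => xr x z c = true)
        have h2 : (j + 1) * M = j * M + M := by ring
        omega
  obtain ⟨L, hL, -, hSL, -⟩ := key J le_rfl
  exact ⟨L, hL, hSL⟩

end Pool.Agent.H51.JD
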